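import Mathlib

/-!
# The maximal height of the divisors of `x ^ (p q ^ b) - 1`

For odd primes `p < q` the polynomial `Φ_p (x) Φ_q (x) Φ_{p q²} (x) Φ_{q³} (x)` divides
`x ^ (p q ^ b) - 1` for every `b ≥ 3`, and it has a coefficient of absolute value at least
`p (p + 1) / 2`.  So `B(p q ^ b) ≥ p (p + 1) / 2 > p`.

Put `S_n (x) = 1 + x + ⋯ + x ^ (n - 1)`, `T = S_p S_q` and `V (y) = Φ_{p q} (y) S_q (y ^ q)`. The
polynomial above is `T (x) V (x ^ q)`, and its coefficient of `x ^ (p - 1 + q j)` is `p V_j`.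
Moreover `V (y) (y ^ p - 1) = (y - 1) T (y ^ q)`, so that two coefficients of `V` differ by `p`.
-/

open Polynomial Finset

namespace Pool.Agent.Results.MP_7a0dfe_nt.HalfPSquared

/-- The height of an integer polynomial: the largest absolute value of a coefficient. -/
def height (f : ℤ[X]) : ℕ := f.support.sup fun k => (f.coeff k).natAbs

/-- `1 + x + ⋯ + x ^ (n - 1)` -/
noncomputable def S (n : ℕ) : ℤ[X] := ∑ j ∈ range n, X ^ j

theorem coeff_S (q n : ℕ) : (S q).coeff n = if n < q then 1 else 0 := by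
  unfold S
  simp [coeff_X_pow]

theorem S_mul (n : ℕ) : S n * (X - 1) = X ^ n - 1 := by unfold S; exact geom_sum_mul _ _

theorem le_height (f : ℤ[X]) (k : ℕ) : (f.coeff k).natAbs ≤ height f := by
  by_cases hk : k ∈ f.support
  · exact Finset.le_sup (f := fun k => (f.coeff k).natAbs) hk
  · rw [notMem_support_iff] at hk
    simp [hk]

/-- coefficients of `S_p S_q` at `p - 1 + q c` -/
theorem coeff_T {p q : ℕ} (hp : 0 < p) (hpq : p ≤ q) (c : ℕ) :
    (S p * S q).coeff (p - 1 + q * c) = if c = 0 then (p : ℤ) else 0 := by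
  have h : (S p * S q).coeff (p - 1 + q * c) =
      ∑ j ∈ range p, if j ≤ p - 1 + q * c ∧ p - 1 + q * c - j < q then (1 : ℤ) else 0 := by
    have : S p * S q = ∑ j ∈ range p, X ^ j * S q := by
      conv_lhs => rw [S]
      rw [Finset.sum_mul]
    rw [this, finsetSum_coeff]
    apply Finset.sum_congr rfl
    intro j _
    rw [coeff_X_pow_mul', coeff_S]
    split_ifs with h1 h2 h3 h4 <;> first | rfl | (exfalso; tauto)
  rw [h]
  split_ifs with hc
  · subst hc
    rw [Finset.sum_congr rfl (g := fun _ => (1 : ℤ))]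
    · simp
    · intro j hj
      rw [Finset.mem_range] at hj
      rw [if_pos]
      constructor <;> omega
  · apply Finset.sum_eq_zero
    intro j hj
    rw [Finset.mem_range] at hj
    rw [if_neg]
    rintro ⟨_, h2⟩
    have : q * 1 ≤ q * c := Nat.mul_le_mul_left q (by omega)
    omega

/-- The coefficient of `P (x) V (x ^ q)` at `r + q j`, when `P` vanishes at `r + q c`, `c ≥ 1`. -/
theorem coeff_mul_expand {q : ℕ} (hq : 0 < q) (P V : ℤ[X]) (r j : ℕ) (hr : r < q)
    (hP : ∀ c, 1 ≤ c → P.coeff (r + q * c) = 0) :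
    (P * expand ℤ q V).coeff (r + q * j) = P.coeff r * V.coeff j := by
  rw [coeff_mul, Finset.sum_eq_single (r, q * j)]
  · rw [coeff_expand_mul' hq]
  · rintro ⟨u, v⟩ huv hne
    rw [Finset.HasAntidiagonal.mem_antidiagonal] at huv
    rw [coeff_expand hq]
    split_ifs with hd
    · obtain ⟨k, rfl⟩ := hd
      rw [Nat.mul_div_cancel_left _ hq]
      have hkj : k ≤ j := by
        by_contra hlt
        push Not at hlt
        have : q * (j + 1) ≤ q * k := Nat.mul_le_mul_left q hlt
        rw [Nat.mul_add] at this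
        omega
      obtain ⟨c, rfl⟩ := Nat.exists_eq_add_of_le hkj
      have hu : u = r + q * c := by rw [Nat.mul_add] at huv; omega
      rcases Nat.eq_zero_or_pos c with h0 | h0
      · exfalso
        apply hne
        subst h0
        rw [hu]; simp
      · rw [hu, hP c h0, zero_mul]
    · simp
  · intro h
    exact absurd (by rw [Finset.HasAntidiagonal.mem_antidiagonal]) h

/-- `V (y) = Φ_{p q} (y) S_q (y ^ q)` -/
noncomputable def V (p q : ℕ) : ℤ[X] := cyclotomic (p * q) ℤ * expand ℤ q (S q)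

theorem S_prime {p : ℕ} (hp : p.Prime) : S p = cyclotomic p ℤ := by
  have := Fact.mk hp
  rw [cyclotomic_prime ℤ p, S]

theorem S_ne_zero {p : ℕ} (hp : 0 < p) : S p ≠ 0 := by
  intro h
  have := congrArg (fun f => Polynomial.coeff f 0) h
  simp only [coeff_S, if_pos hp, coeff_zero] at this
  exact one_ne_zero this

/-- `Φ_{p q} (y) (y ^ p - 1) = (y - 1) S_p (y ^ q)` -/
theorem phi_mul {p q : ℕ} (hp : p.Prime) (hq : q.Prime) (hne : p ≠ q) :
    cyclotomic (p * q) ℤ * (X ^ p - 1) = (X - 1) * expand ℤ q (S p) := by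
  have h1 : expand ℤ p (S q) = cyclotomic (p * q) ℤ * S q := by
    rw [S_prime hq, cyclotomic_expand_eq_cyclotomic_mul hp, mul_comm q p]
    intro h
    exact hne ((Nat.prime_dvd_prime_iff_eq hp hq).1 h)
  have h2 : expand ℤ p (S q) * (X ^ p - 1) = X ^ (p * q) - 1 := by
    have := congrArg (expand ℤ p) (S_mul q)
    simp only [map_mul, map_sub, map_pow, expand_X, map_one] at this
    rw [this, ← pow_mul]
  have h3 : expand ℤ q (S p) * (X ^ q - 1) = X ^ (p * q) - 1 := by
    have := congrArg (expand ℤ q) (S_mul p)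
    simp only [map_mul, map_sub, map_pow, expand_X, map_one] at this
    rw [this, ← pow_mul, mul_comm]
  apply mul_right_cancel₀ (S_ne_zero hq.pos)
  calc cyclotomic (p * q) ℤ * (X ^ p - 1) * S q
      = (cyclotomic (p * q) ℤ * S q) * (X ^ p - 1) := by ring
    _ = expand ℤ q (S p) * (X ^ q - 1) := by rw [← h1, h2, h3]
    _ = expand ℤ q (S p) * (S q * (X - 1)) := by rw [S_mul]
    _ = (X - 1) * expand ℤ q (S p) * S q := by ring

theorem V_mul {p q : ℕ} (hp : p.Prime) (hq : q.Prime) (hne : p ≠ q) :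
    V p q * (X ^ p - 1) = (X - 1) * expand ℤ q (S p * S q) := by
  unfold V
  rw [map_mul]
  linear_combination (expand ℤ q (S q)) * phi_mul hp hq hne

/-- Two coefficients of `V` differ by `p`. -/
theorem V_coeff {p q : ℕ} (hp : p.Prime) (hq : q.Prime) (hlt : p < q) :
    (V p q).coeff (q * (p - 1)) - (V p q).coeff (q * (p - 1) - p) = p := by
  have h := congrArg (fun f => Polynomial.coeff f (q * (p - 1))) (V_mul hp hq hlt.ne)
  have h2 := hp.two_le
  have hge : p ≤ q * (p - 1) := by
    calc p ≤ q * 1 := by omega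
      _ ≤ q * (p - 1) := Nat.mul_le_mul_left q (by omega)
  simp only [mul_sub, mul_one, sub_mul, one_mul, coeff_sub] at h
  rw [coeff_mul_X_pow', if_pos hge] at h
  have e1 : (expand ℤ q (S p * S q)).coeff (q * (p - 1)) = p := by
    rw [coeff_expand_mul' hq.pos]
    have := coeff_T (p := p) (q := q) hp.pos hlt.le 0
    simpa using this
  have e2 : (X * expand ℤ q (S p * S q)).coeff (q * (p - 1)) = 0 := by
    obtain ⟨m, hm⟩ : ∃ m, q * (p - 1) = m + 1 := ⟨q * (p - 1) - 1, by omega⟩
    rw [hm, coeff_X_mul, coeff_expand hq.pos, if_neg]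
    intro hd
    have h3 : q ∣ m + 1 := hm ▸ dvd_mul_right q (p - 1)
    have h4 : q ∣ 1 := (Nat.dvd_add_right hd).1 h3
    have := Nat.le_of_dvd one_pos h4
    omega
  rw [e1, e2] at h
  linarith

/-- The witness `Φ_p Φ_q Φ_{p q²} Φ_{q³}`. -/
noncomputable def W (p q : ℕ) : ℤ[X] :=
  cyclotomic p ℤ * (cyclotomic q ℤ * (cyclotomic (p * q ^ 2) ℤ * cyclotomic (q ^ 3) ℤ))

theorem W_eq {p q : ℕ} (hp : p.Prime) (hq : q.Prime) :
    W p q = (S p * S q) * expand ℤ q (V p q) := by
  unfold W V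
  rw [map_mul, cyclotomic_expand_eq_cyclotomic hq (dvd_mul_left q p), S_prime hp, S_prime hq,
    cyclotomic_expand_eq_cyclotomic hq (dvd_refl q),
    cyclotomic_expand_eq_cyclotomic hq (dvd_mul_left q q)]
  have e1 : p * q ^ 2 = p * q * q := by ring
  have e2 : q ^ 3 = q * q * q := by ring
  rw [e1, e2]
  ring

theorem W_coeff {p q : ℕ} (hp : p.Prime) (hq : q.Prime) (hlt : p < q) (j : ℕ) :
    (W p q).coeff (p - 1 + q * j) = p * (V p q).coeff j := by
  have h2 := hp.two_le
  rw [W_eq hp hq, coeff_mul_expand hq.pos _ _ (p - 1) j (by omega)]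
  · congr 1
    have := coeff_T (p := p) (q := q) hp.pos hlt.le 0
    simpa using this
  · intro c hc
    rw [coeff_T hp.pos hlt.le, if_neg (by omega)]

theorem W_height {p q : ℕ} (hp : p.Prime) (hq : q.Prime) (ho : Odd p) (hlt : p < q) :
    p * (p + 1) / 2 ≤ height (W p q) := by
  obtain ⟨k, rfl⟩ := ho
  have h := V_coeff hp hq hlt
  have key : ∀ j, (2 * k + 1) * ((V (2 * k + 1) q).coeff j).natAbs ≤ height (W (2 * k + 1) q) := by
    intro j
    have := le_height (W (2 * k + 1) q) (2 * k + 1 - 1 + q * j)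
    rw [W_coeff hp hq hlt, Int.natAbs_mul, Int.natAbs_natCast] at this
    exact this
  have hk : (2 * k + 1) * (2 * k + 1 + 1) / 2 = (2 * k + 1) * (k + 1) := by
    rw [show (2 * k + 1) * (2 * k + 1 + 1) = ((2 * k + 1) * (k + 1)) * 2 by ring]
    simp
  rw [hk]
  have h1 : k + 1 ≤ ((V (2 * k + 1) q).coeff (q * (2 * k + 1 - 1))).natAbs ∨
      k + 1 ≤ ((V (2 * k + 1) q).coeff (q * (2 * k + 1 - 1) - (2 * k + 1))).natAbs := by
    generalize (V (2 * k + 1) q).coeff (q * (2 * k + 1 - 1)) = e at h ⊢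
    generalize (V (2 * k + 1) q).coeff (q * (2 * k + 1 - 1) - (2 * k + 1)) = f at h ⊢
    push_cast at h
    omega
  rcases h1 with h1 | h1
  · exact (Nat.mul_le_mul_left _ h1).trans (key _)
  · exact (Nat.mul_le_mul_left _ h1).trans (key _)

theorem W_dvd {p q b : ℕ} (hp : p.Prime) (hq : q.Prime) (hlt : p < q) (hb : 3 ≤ b) :
    W p q ∣ X ^ (p * q ^ b) - 1 := by
  have hpos : 0 < p * q ^ b := Nat.mul_pos hp.pos (pow_pos hq.pos _)
  rw [← prod_cyclotomic_eq_X_pow_sub_one hpos]
  have h2 := hp.two_le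
  have hq2 : q < q ^ 2 := by nlinarith
  have o1 : q < p * q ^ 2 := by nlinarith
  have o2 : p * q ^ 2 < q ^ 3 := by
    rw [pow_succ q 2, mul_comm]
    exact Nat.mul_lt_mul_of_pos_left hlt (pow_pos hq.pos 2)
  have e : W p q = ∏ d ∈ ({p, q, p * q ^ 2, q ^ 3} : Finset ℕ), cyclotomic d ℤ := by
    rw [Finset.prod_insert, Finset.prod_insert, Finset.prod_insert, Finset.prod_singleton]
    · rfl
    · simp only [Finset.mem_singleton]; omega
    · simp only [Finset.mem_insert, Finset.mem_singleton]; omega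
    · simp only [Finset.mem_insert, Finset.mem_singleton]; omega
  rw [e]
  apply Finset.prod_dvd_prod_of_subset
  intro d hd
  rw [Nat.mem_divisors]
  refine ⟨?_, hpos.ne'⟩
  simp only [Finset.mem_insert, Finset.mem_singleton] at hd
  rcases hd with rfl | rfl | rfl | rfl
  · exact dvd_mul_right _ _
  · exact (dvd_pow_self _ (by omega)).mul_left _
  · exact mul_dvd_mul_left _ (pow_dvd_pow _ (by omega))
  · exact (pow_dvd_pow _ hb).mul_left _

/-! ### The maximum exists -/

theorem dvd_prod_irr {ι : Type} [DecidableEq ι] (p : ι → ℤ[X]) : ∀ (s : Finset ι),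
    (∀ i ∈ s, Irreducible (p i)) → ∀ f : ℤ[X], f ∣ ∏ i ∈ s, p i →
    ∃ t ⊆ s, Associated f (∏ i ∈ t, p i) := by
  intro s
  induction s using Finset.induction_on with
  | empty =>
    intro _ f hf
    exact ⟨∅, subset_rfl, by
      simpa using associated_one_iff_isUnit.2 (isUnit_of_dvd_one (by simpa using hf))⟩
  | insert a s ha ih =>
    intro hs f hf
    rw [Finset.prod_insert ha] at hf
    obtain ⟨f1, f2, h1, h2, rfl⟩ := exists_dvd_and_dvd_of_dvd_mul hf
    obtain ⟨t, hts, ht⟩ := ih (fun i hi => hs i (Finset.mem_insert_of_mem hi)) f2 h2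
    obtain ⟨g, hg⟩ := h1
    rcases (hs a (Finset.mem_insert_self a s)).isUnit_or_isUnit hg with h | h
    · refine ⟨t, hts.trans (Finset.subset_insert a s), ?_⟩
      have := (associated_one_iff_isUnit.2 h).mul_mul ht
      simpa using this
    · refine ⟨insert a t, Finset.insert_subset_insert a hts, ?_⟩
      rw [Finset.prod_insert fun h' => ha (hts h')]
      obtain ⟨u, hu⟩ := h
      exact Associated.mul_mul ⟨u, by rw [hu, ← hg]⟩ ht

theorem height_of_associated {f g : ℤ[X]} (h : Associated f g) : height f = height g := by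
  have key : ∀ f g : ℤ[X], Associated f g → height f ≤ height g := by
    intro f g h
    obtain ⟨u, hu⟩ := h.symm
    obtain ⟨r, hr, hru⟩ := Polynomial.isUnit_iff.1 u.isUnit
    unfold height
    apply Finset.sup_le
    intro k _
    have : (f.coeff k).natAbs = (g.coeff k).natAbs := by
      rw [← hu, ← hru, coeff_mul_C, Int.natAbs_mul, Int.natAbs_of_isUnit hr, mul_one]
    rw [this]
    exact le_height g k
  exact le_antisymm (key f g h) (key g f h.symm)

/-- the set of the heights of the divisors of `x ^ n - 1` -/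
def heights (n : ℕ) : Set ℕ := {h | ∃ f : ℤ[X], f ∣ X ^ n - 1 ∧ height f = h}

/-- `B(n)`, the maximal height of a divisor of `x ^ n - 1` -/
noncomputable def B (n : ℕ) : ℕ := sSup (heights n)

theorem heights_finite {n : ℕ} (hn : 0 < n) : (heights n).Finite := by
  apply (n.divisors.powerset.image fun t => height (∏ d ∈ t, cyclotomic d ℤ)).finite_toSet.subset
  rintro h ⟨f, hf, rfl⟩
  rw [← prod_cyclotomic_eq_X_pow_sub_one hn] at hf
  obtain ⟨t, hts, ht⟩ := dvd_prod_irr (fun d => cyclotomic d ℤ) n.divisors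
    (fun d hd => cyclotomic.irreducible (Nat.pos_of_mem_divisors hd)) f hf
  rw [Finset.coe_image, Set.mem_image]
  exact ⟨t, by simpa using hts, (height_of_associated ht).symm⟩

theorem B_isGreatest {n : ℕ} (hn : 0 < n) : IsGreatest (heights n) (B n) := by
  have hb := (heights_finite hn).bddAbove
  exact ⟨Nat.sSup_mem ⟨height 1, 1, one_dvd _, rfl⟩ hb, fun h hh => le_csSup hb hh⟩

/-- **`B(p q ^ b) ≥ p (p + 1) / 2 > p`** for all odd primes `p < q` and all `b ≥ 3`, where `B(n)` is
the largest height of a divisor of `x ^ n - 1` in `ℤ[x]`. -/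
theorem result :
    (∀ n : ℕ, 0 < n → IsGreatest (heights n) (B n)) ∧
    ∀ p q b : ℕ, p.Prime → q.Prime → Odd p → Odd q → p < q → 2 < b →
      p * (p + 1) / 2 ≤ B (p * q ^ b) ∧ p < B (p * q ^ b) := by
  refine ⟨fun n hn => B_isGreatest hn, ?_⟩
  intro p q b hp hq hpo _ hlt hb
  have hpos : 0 < p * q ^ b := Nat.mul_pos hp.pos (pow_pos hq.pos _)
  have h1 : p * (p + 1) / 2 ≤ B (p * q ^ b) :=
    (W_height hp hq hpo hlt).trans ((B_isGreatest hpos).2 ⟨W p q, W_dvd hp hq hlt hb, rfl⟩)
  refine ⟨h1, lt_of_lt_of_le ?_ h1⟩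
  have h3 : 3 ≤ p := by
    have := hp.two_le
    rcases hpo with ⟨k, hk⟩
    omega
  have h4 : 2 * p + 2 ≤ p * (p + 1) := by nlinarith
  omega

end Pool.Agent.Results.MP_7a0dfe_nt.HalfPSquared
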